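import Pool.Agent.Run7.h729.Lip.Meas

/-!
# The law of the interface of a uniform Lipschitz function is an average of determinants

For every lattice domain, every `l` in `(0, 1/2]` and every finite sequence of triangles, the volume
of the Lipschitz height functions whose interface starts with that sequence is the integral, over
the fractional parts of the heights, of the absolute value of one explicit determinant with local
entries `0, 1, -1`. Conditionally on the fractional parts the model is a free fermion model.
-/

open MeasureTheory Run7.h729

/-- the law of the interface of the uniform Lipschitz height function -/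
theorem Pool.Agent.Results.MP_161523_pr.InterfaceDet.result (G : Dom) (l : ℝ) (hl : 0 < l)
    (hl' : l ≤ 1 / 2) (k : ℕ) (s : ℕ → Tri) (h0 : s 0 = G.ta) (hs : ∀ i < k, s i ≠ G.tb) :
    volume (G.Lipschitz l ∩ G.Follows l k s) =
      ∫⁻ θ : G.Field in Set.univ.pi (fun _ => Set.Ioo (0 : ℝ) 1),
        ENNReal.ofReal |(G.matrix l θ k s).det| :=
  G.volume_eq hl hl' k s h0 hs
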